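import Pool.Agent.W812.RB.Stm

set_option autoImplicit false

namespace Pool.Agent.W346.RB
open Pool.Agent.W812.RB Finset

/-- a set on which nontrivial progressions are absent -/
theorem int_aux (M a : ℕ) (hM : Odd M) (A : Finset (ZMod M))
    (hA : ∀ x ∈ A, ∀ z ∈ A, ∀ y ∈ A, x + z = y + y → x = z) :
    A.card * rothNumberNat a ≤ rothNumberNat (2 * M * a) := by
  have hM0 : 0 < M := hM.pos
  have : NeZero M := ⟨hM0.ne'⟩
  obtain ⟨T, hTs, hTc, hT⟩ := rothNumberNat_spec a
  have hdec : ∀ x1 x2 b1 b2 : ℕ, x1 < 2 * M → x2 < 2 * M → x1 + 2 * M * b1 = x2 + 2 * M * b2 →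
      x1 = x2 ∧ b1 = b2 := by
    intro x1 x2 b1 b2 h1 h2 h
    have e1 : (x1 + 2 * M * b1) % (2 * M) = x1 := by
      rw [Nat.add_mul_mod_self_left, Nat.mod_eq_of_lt h1]
    have e2 : (x2 + 2 * M * b2) % (2 * M) = x2 := by
      rw [Nat.add_mul_mod_self_left, Nat.mod_eq_of_lt h2]
    have hx : x1 = x2 := by rw [← e1, ← e2, h]
    refine ⟨hx, ?_⟩
    subst hx
    have h3 : 2 * M * b1 = 2 * M * b2 := by omega
    exact Nat.eq_of_mul_eq_mul_left (by omega) h3
  let F : ZMod M × ℕ → ℕ := fun q => q.1.val + 2 * M * q.2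
  have hval : ∀ x : ZMod M, x.val < M := fun x => ZMod.val_lt x
  have hinj : Set.InjOn F (A ×ˢ T : Finset (ZMod M × ℕ)) := by
    rintro ⟨x1, b1⟩ _ ⟨x2, b2⟩ _ h
    have h' : x1.val + 2 * M * b1 = x2.val + 2 * M * b2 := h
    obtain ⟨h1, h2⟩ := hdec _ _ _ _ (by have := hval x1; omega) (by have := hval x2; omega) h'
    have h3 : x1 = x2 := ZMod.val_injective M h1
    rw [h3, h2]
  have hcard : ((A ×ˢ T).image F).card = A.card * rothNumberNat a := by
    rw [Finset.card_image_of_injOn hinj, Finset.card_product, hTc]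
  rw [← hcard]
  refine ThreeAPFree.le_rothNumberNat _ ?_ ?_ rfl
  · intro u1 hu1 u2 hu2 u3 hu3 h
    simp only [Finset.coe_image, Set.mem_image, Finset.mem_coe, Finset.mem_product, Prod.exists]
      at hu1 hu2 hu3
    obtain ⟨x1, b1, ⟨hx1, hb1⟩, rfl⟩ := hu1
    obtain ⟨x2, b2, ⟨hx2, hb2⟩, rfl⟩ := hu2
    obtain ⟨x3, b3, ⟨hx3, hb3⟩, rfl⟩ := hu3
    have h' : x1.val + 2 * M * b1 + (x3.val + 2 * M * b3) =
        x2.val + 2 * M * b2 + (x2.val + 2 * M * b2) := h
    have h2 : (x1.val + x3.val) + 2 * M * (b1 + b3) = (x2.val + x2.val) + 2 * M * (b2 + b2) := by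
      rw [mul_add, mul_add]; omega
    have v1 := hval x1
    have v2 := hval x2
    have v3 := hval x3
    obtain ⟨e1, e2⟩ := hdec _ _ _ _ (by omega) (by omega) h2
    have e3 : b1 = b2 := hT hb1 hb2 hb3 e2
    have e4 : x1 + x3 = x2 + x2 := by
      have := congrArg (fun n : ℕ => (n : ZMod M)) e1
      simpa using this
    have e5 : x1 = x3 := hA x1 hx1 x3 hx3 x2 hx2 e4
    subst e5
    have e6 : x1.val = x2.val := by omega
    show x1.val + 2 * M * b1 = x2.val + 2 * M * b2
    rw [e6, e3]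
  · intro u hu
    simp only [Finset.mem_image, Finset.mem_product, Prod.exists] at hu
    obtain ⟨x, b, ⟨_, hb⟩, rfl⟩ := hu
    have hb' : b < a := Finset.mem_range.1 (hTs hb)
    have hx := hval x
    show x.val + 2 * M * b < 2 * M * a
    have : 2 * M * (b + 1) ≤ 2 * M * a := Nat.mul_le_mul_left _ hb'
    rw [mul_add] at this
    omega

theorem integer : IntegerStm := by
  intro M B a S hM hS
  obtain ⟨g, hg1, hg2⟩ := hS
  have hc : S.card = ∑ v ∈ range (B + 1), (S.filter fun x => g x = v).card :=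
    Finset.card_eq_sum_card_fiberwise fun x hx => Finset.mem_coe.2
      (Finset.mem_range.2 (Nat.lt_succ_of_le (hg1 x hx)))
  rw [hc, Finset.sum_mul]
  calc ∑ v ∈ range (B + 1), (S.filter fun x => g x = v).card * rothNumberNat a
      ≤ ∑ _v ∈ range (B + 1), rothNumberNat (2 * M * a) := by
        refine Finset.sum_le_sum fun v _ => ?_
        refine int_aux M a hM _ ?_
        intro x hx z hz y hy h
        rw [Finset.mem_filter] at hx hz hy
        by_contra hne
        have := hg2 x hx.1 z hz.1 y hy.1 h hne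
        omega
    _ = (B + 1) * rothNumberNat (2 * M * a) := by
        rw [Finset.sum_const, Finset.card_range, smul_eq_mul]

end Pool.Agent.W346.RB
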